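import Mathlib

/-!
# MP_bb2d27_ag : a flat manifold with `b₁ = 0`, admitting complex structures, all of whose
complex automorphism groups `Aut(M, J)` are infinite.
-/

namespace Pool.Agent.Results.MP_bb2d27_ag.AlwaysInfinite

/-! ## Definitions used in the statement -/

section Defs

variable {E : Type} [NormedAddCommGroup E] [InnerProductSpace ℝ E]

/-- A Bieberbach group on the Euclidean space `E`: a group of isometries of `E` which is discrete
(it acts properly discontinuously), cocompact and torsion-free. -/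
structure IsBieberbach (Γ : Subgroup (E ≃ᵃⁱ[ℝ] E)) : Prop where
  discrete : ∀ K : Set E, IsCompact K →
    {γ : E ≃ᵃⁱ[ℝ] E | γ ∈ Γ ∧ ((γ '' K) ∩ K).Nonempty}.Finite
  cocompact : ∃ K : Set E, IsCompact K ∧ ∀ x, ∃ γ ∈ Γ, γ x ∈ K
  torsionFree : ∀ γ ∈ Γ, ∀ n : ℕ, 0 < n → γ ^ n = 1 → γ = 1

/-- The orbit equivalence relation of `Γ` on `E`. -/
def orbitSetoid (Γ : Subgroup (E ≃ᵃⁱ[ℝ] E)) : Setoid E where
  r x y := ∃ γ ∈ Γ, γ x = y
  iseqv := by
    refine ⟨fun x => ⟨1, Γ.one_mem, rfl⟩, ?_, ?_⟩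
    · rintro x y ⟨γ, hγ, rfl⟩
      refine ⟨γ⁻¹, Γ.inv_mem hγ, ?_⟩
      exact γ.symm_apply_apply x
    · rintro x y z ⟨γ, hγ, rfl⟩ ⟨δ, hδ, rfl⟩
      exact ⟨δ * γ, Γ.mul_mem hδ hγ, rfl⟩

/-- The quotient `M = E / Γ`. -/
abbrev FlatManifold (Γ : Subgroup (E ≃ᵃⁱ[ℝ] E)) : Type := Quotient (orbitSetoid Γ)

/-- The first Betti number of `E / Γ`, namely the rank of `H₁(E/Γ; ℤ) = Γ^ab`
(as `Γ = π₁(E/Γ)` for a Bieberbach group `Γ`). -/
noncomputable def bettiOne (Γ : Subgroup (E ≃ᵃⁱ[ℝ] E)) : Cardinal :=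
  Module.rank ℤ (Additive (Abelianization Γ))

/-- A (flat Kähler) complex structure on `E / Γ`: a linear map `J` with `J² = -1` commuting with the
linear parts of all elements of `Γ`, i.e. with the holonomy group. -/
structure IsComplexStructure (Γ : Subgroup (E ≃ᵃⁱ[ℝ] E)) (J : E →ₗ[ℝ] E) : Prop where
  sq : ∀ v, J (J v) = -v
  comm : ∀ γ ∈ Γ, ∀ v, J (γ.linearIsometryEquiv v) = γ.linearIsometryEquiv (J v)

/-- `Aut(M, J)` for `M = E / Γ`: the group of bijections `f` of `M` which lift to an invertible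
affine map `F` of `E` whose linear part commutes with `J`. -/
def Aut (Γ : Subgroup (E ≃ᵃⁱ[ℝ] E)) (J : E →ₗ[ℝ] E) : Subgroup (Equiv.Perm (FlatManifold Γ)) where
  carrier := {f | ∃ F : E ≃ᵃ[ℝ] E,
    (∀ x : E, f (Quotient.mk (orbitSetoid Γ) x) = Quotient.mk (orbitSetoid Γ) (F x)) ∧
      ∀ v : E, F.linear (J v) = J (F.linear v)}
  mul_mem' := by
    rintro f g ⟨F, hF, hF'⟩ ⟨G, hG, hG'⟩
    refine ⟨F * G, fun x => ?_, fun v => ?_⟩
    · change f (g _) = _
      rw [hG, hF]; rfl
    · change F.linear (G.linear (J v)) = J (F.linear (G.linear v))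
      rw [hG', hF']
  one_mem' := ⟨1, fun x => rfl, fun v => rfl⟩
  inv_mem' := by
    rintro f ⟨F, hF, hF'⟩
    refine ⟨F⁻¹, fun x => ?_, fun v => ?_⟩
    · rw [Equiv.Perm.inv_eq_iff_eq, hF]
      congr 1
      exact (F.apply_symm_apply x).symm
    · change F.linear.symm (J v) = J (F.linear.symm v)
      rw [LinearEquiv.symm_apply_eq, hF', LinearEquiv.apply_symm_apply]

end Defs


/-! ## The construction -/

section Construction

/-- The holonomy group. -/
abbrev G := ZMod 5 × ZMod 5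

/-- The index set of the six components. -/
abbrev Comp := Option (ZMod 5)

/-- The coordinates. -/
abbrev Idx := Comp × ZMod 5 × Fin 2

/-- The functional through which `G` acts on component `j`. -/
def ell : Comp → G → ZMod 5
  | none, g => g.2
  | some t, g => g.1 + t * g.2

/-- The functional giving the translation part on component `j`. -/
def em : Comp → G → ZMod 5
  | none, g => g.1
  | some _, g => g.2

lemma ell_add (j : Comp) (g h : G) : ell j (g + h) = ell j g + ell j h := by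
  cases j <;> simp [ell] ; ring

lemma em_add (j : Comp) (g h : G) : em j (g + h) = em j g + em j h := by
  cases j <;> simp [em]

lemma ell_zero (j : Comp) : ell j 0 = 0 := by
  cases j <;> simp [ell]

lemma em_zero (j : Comp) : em j 0 = 0 := by
  cases j <;> simp [em]

lemma ell_neg (j : Comp) (g : G) : ell j (-g) = -ell j g := by
  cases j <;> simp [ell] ; ring

lemma em_neg (j : Comp) (g : G) : em j (-g) = -em j g := by
  cases j <;> simp [em]

lemma exists_comp : ∀ g : G, g ≠ 0 → ∃ j : Comp, ell j g = 0 ∧ em j g ≠ 0 := by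
  decide

/-- The Euclidean space: vectors all of whose blocks of five coordinates have sum zero. -/
def V : Submodule ℝ (EuclideanSpace ℝ Idx) where
  carrier := {x | ∀ j c, ∑ i, x (j, i, c) = 0}
  add_mem' := by
    intro x y hx hy j c
    simp only [PiLp.add_apply, Finset.sum_add_distrib, hx j c, hy j c, add_zero]
  zero_mem' := by intro j c; simp
  smul_mem' := by
    intro r x hx j c
    simp only [PiLp.smul_apply, smul_eq_mul, ← Finset.mul_sum, hx j c, mul_zero]

lemma V_ext {x y : V} (h : ∀ j i c, x.1 (j, i, c) = y.1 (j, i, c)) : x = y := by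
  apply Subtype.ext
  ext ⟨j, i, c⟩
  exact h j i c

/-- Constructor for elements of `V`. -/
def mkV (f : Comp → ZMod 5 → Fin 2 → ℝ) (hf : ∀ j c, ∑ i, f j i c = 0) : V :=
  ⟨WithLp.toLp 2 (fun p => f p.1 p.2.1 p.2.2), fun j c => hf j c⟩

@[simp] lemma mkV_apply (f : Comp → ZMod 5 → Fin 2 → ℝ) (hf) (j i c) :
    (mkV f hf).1 (j, i, c) = f j i c := rfl

lemma V_sum (x : V) (j : Comp) (c : Fin 2) : ∑ i, x.1 (j, i, c) = 0 := x.2 j c

lemma V_sum_shift (x : V) (j : Comp) (c : Fin 2) (s : ZMod 5) :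
    ∑ i, x.1 (j, i - s, c) = 0 := by
  rw [← V_sum x j c]
  exact Fintype.sum_equiv (Equiv.subRight s) _ _ (fun i => rfl)

/-- The permutation of coordinates. -/
def shiftFun (g : G) (x : V) : V :=
  mkV (fun j i c => x.1 (j, i - ell j g, c)) (fun j c => V_sum_shift x j c _)

@[simp] lemma shiftFun_apply (g : G) (x : V) (j i c) :
    (shiftFun g x).1 (j, i, c) = x.1 (j, i - ell j g, c) := rfl

lemma shiftFun_comp (g h : G) (x : V) : shiftFun g (shiftFun h x) = shiftFun (g + h) x := by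
  apply V_ext
  intro j i c
  simp only [shiftFun_apply, ell_add, sub_sub]

lemma shiftFun_zero (x : V) : shiftFun 0 x = x := by
  apply V_ext
  intro j i c
  simp [ell_zero]

/-- the permutation of the index set -/
def idxPerm (g : G) : Idx ≃ Idx where
  toFun p := (p.1, p.2.1 - ell p.1 g, p.2.2)
  invFun p := (p.1, p.2.1 + ell p.1 g, p.2.2)
  left_inv p := by simp
  right_inv p := by simp

/-- The holonomy representation. -/
def rho (g : G) : V ≃ₗᵢ[ℝ] V where
  toFun := shiftFun g
  invFun := shiftFun (-g)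
  map_add' x y := by
    apply V_ext; intro j i c
    simp
  map_smul' r x := by
    apply V_ext; intro j i c
    simp
  left_inv x := by rw [shiftFun_comp, neg_add_cancel, shiftFun_zero]
  right_inv x := by rw [shiftFun_comp, add_neg_cancel, shiftFun_zero]
  norm_map' x := by
    change ‖(shiftFun g x).1‖ = ‖x.1‖
    rw [EuclideanSpace.norm_eq, EuclideanSpace.norm_eq]
    congr 1
    exact Fintype.sum_equiv (idxPerm g) _ _ (fun p => rfl)

@[simp] lemma rho_apply (g : G) (x : V) (j i c) :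
    (rho g x).1 (j, i, c) = x.1 (j, i - ell j g, c) := rfl

lemma rho_rho (g h : G) (x : V) : rho g (rho h x) = rho (g + h) x := shiftFun_comp g h x

lemma rho_zero (x : V) : rho 0 x = x := shiftFun_zero x

/-- The affine isometry `x ↦ a + ρ(g) x`. -/
noncomputable def aff (g : G) (a : V) : V ≃ᵃⁱ[ℝ] V :=
  (rho g).toAffineIsometryEquiv.trans (AffineIsometryEquiv.constVAdd ℝ V a)

lemma aff_apply (g : G) (a x : V) : aff g a x = a + rho g x := rfl

lemma aff_mul (g h : G) (a b : V) : aff g a * aff h b = aff (g + h) (a + rho g b) := by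
  ext1 x
  change aff g a (aff h b x) = _
  simp only [aff_apply, map_add, rho_rho, add_assoc]

lemma aff_one : aff 0 0 = 1 := by
  ext1 x
  change aff 0 0 x = x
  rw [aff_apply, rho_zero, zero_add]

lemma aff_linear (g : G) (a v : V) : (aff g a).linearIsometryEquiv v = rho g v := by
  rfl

/-- `Good g a` : the affine map `x ↦ a + ρ(g)x` belongs to the Bieberbach group. -/
def Good (g : G) (a : V) : Prop :=
  ∀ j i c, ∃ n : ℤ, 5 * a.1 (j, i, c) = n ∧ (n : ZMod 5) = em j g

lemma good_add {g h : G} {a b : V} (ha : Good g a) (hb : Good h b) :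
    Good (g + h) (a + rho g b) := by
  intro j i c
  obtain ⟨n, hn, hn'⟩ := ha j i c
  obtain ⟨m, hm, hm'⟩ := hb j (i - ell j g) c
  refine ⟨n + m, ?_, ?_⟩
  · change 5 * (a.1 (j, i, c) + b.1 (j, i - ell j g, c)) = _
    push_cast
    rw [mul_add, hn, hm]
  · push_cast
    rw [hn', hm', em_add]

lemma good_neg {g : G} {a : V} (ha : Good g a) : Good (-g) (-(rho (-g) a)) := by
  intro j i c
  obtain ⟨n, hn, hn'⟩ := ha j (i - ell j (-g)) c
  refine ⟨-n, ?_, ?_⟩
  · change 5 * (-(a.1 (j, i - ell j (-g), c))) = _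
    push_cast
    rw [← hn]; ring
  · push_cast
    rw [hn', em_neg]

lemma good_zero : Good 0 0 := by
  intro j i c
  exact ⟨0, by simp, by simp [em_zero]⟩

lemma exists_good (g : G) : ∃ a, Good g a := by
  refine ⟨mkV (fun j i _ => ((if i = 0 then (-4) * ((em j g).val : ℤ) else ((em j g).val : ℤ) : ℤ) : ℝ) / 5)
    ?_, ?_⟩
  · intro j _
    rw [← Finset.sum_div, ← Int.cast_sum]
    have : (∑ i : ZMod 5, (if i = 0 then (-4) * ((em j g).val : ℤ) else ((em j g).val : ℤ))) = 0 := by
      have h1 : ∀ i : ZMod 5, (if i = 0 then (-4) * ((em j g).val : ℤ) else ((em j g).val : ℤ)) =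
          ((em j g).val : ℤ) + (if i = 0 then (-5) * ((em j g).val : ℤ) else 0) := by
        intro i
        split_ifs <;> ring
      simp only [h1, Finset.sum_add_distrib, Finset.sum_const, Finset.card_univ, ZMod.card,
        Finset.sum_ite_eq', Finset.mem_univ, if_true, nsmul_eq_mul]
      push_cast
      ring
    rw [this]; simp
  · intro j i c
    refine ⟨if i = 0 then (-4) * ((em j g).val : ℤ) else ((em j g).val : ℤ), ?_, ?_⟩
    · rw [mkV_apply]; ring
    · split_ifs
      · push_cast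
        rw [ZMod.natCast_zmod_val]
        have : (-4 : ZMod 5) = 1 := by decide
        rw [this, one_mul]
      · push_cast
        rw [ZMod.natCast_zmod_val]

/-- The Bieberbach group. -/
noncomputable def Gam : Subgroup (V ≃ᵃⁱ[ℝ] V) where
  carrier := {φ | ∃ g a, Good g a ∧ φ = aff g a}
  mul_mem' := by
    rintro _ _ ⟨g, a, ha, rfl⟩ ⟨h, b, hb, rfl⟩
    exact ⟨g + h, a + rho g b, good_add ha hb, aff_mul g h a b⟩
  one_mem' := ⟨0, 0, good_zero, aff_one.symm⟩
  inv_mem' := by
    rintro _ ⟨g, a, ha, rfl⟩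
    refine ⟨-g, -(rho (-g) a), good_neg ha, ?_⟩
    rw [inv_eq_iff_mul_eq_one, aff_mul, map_neg, rho_rho, add_neg_cancel, rho_zero,
      add_neg_cancel, aff_one]

lemma aff_mem {g : G} {a : V} (h : Good g a) : aff g a ∈ Gam := ⟨g, a, h, rfl⟩

lemma aff_pow (g : G) (a : V) (h : Good g a) (n : ℕ) :
    ∃ b, Good (n • g) b ∧ aff g a ^ n = aff (n • g) b := by
  induction n with
  | zero => exact ⟨0, by simpa using good_zero, by simp [aff_one]⟩
  | succ n ih =>
    obtain ⟨b, hb, hb'⟩ := ih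
    refine ⟨b + rho (n • g) a, ?_, ?_⟩
    · rw [succ_nsmul]; exact good_add hb h
    · rw [pow_succ, hb', aff_mul, succ_nsmul]

/-- On a component on which `g` acts trivially, powers act as translations. -/
lemma aff_pow_coord (g : G) (a : V) (j : Comp) (hj : ell j g = 0) (n : ℕ) (x : V) (i c) :
    ((aff g a ^ n) x).1 (j, i, c) = x.1 (j, i, c) + n * a.1 (j, i, c) := by
  induction n generalizing x with
  | zero => simp
  | succ n ih =>
    rw [pow_succ]
    change ((aff g a ^ n) (aff g a x)).1 (j, i, c) = _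
    rw [ih, aff_apply]
    change a.1 (j, i, c) + x.1 (j, i - ell j g, c) + n * a.1 (j, i, c) = _
    rw [hj, sub_zero]
    push_cast; ring

lemma torsionFree : ∀ γ ∈ Gam, ∀ n : ℕ, 0 < n → γ ^ n = 1 → γ = 1 := by
  rintro _ ⟨g, a, ha, rfl⟩ n hn h
  have hn' : (n : ℝ) ≠ 0 := by positivity
  have key : ∀ j i c, ell j g = 0 → a.1 (j, i, c) = 0 := by
    intro j i c hj
    have := aff_pow_coord g a j hj n 0 i c
    rw [h] at this
    change (0 : ℝ) = 0 + n * a.1 (j, i, c) at this
    rw [zero_add] at this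
    exact (mul_eq_zero.mp this.symm).resolve_left hn'
  by_cases hg : g = 0
  · subst hg
    have : a = 0 := by
      apply V_ext
      intro j i c
      rw [key j i c (ell_zero j)]; rfl
    rw [this, aff_one]
  · exfalso
    obtain ⟨j, hj, hj'⟩ := exists_comp g hg
    obtain ⟨m, hm, hm'⟩ := ha j 0 0
    rw [key j 0 0 hj, mul_zero] at hm
    have : m = 0 := Int.cast_eq_zero.mp hm.symm
    rw [this] at hm'
    exact hj' (by simpa using hm'.symm)

/-- translation by a lattice vector, as an element of `Gam` -/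
noncomputable def trans (a : V) (ha : Good 0 a) : Gam := ⟨aff 0 a, aff_mem ha⟩

/-- The lattice -/
noncomputable def Lat : AddSubgroup V where
  carrier := {a | Good 0 a}
  add_mem' := by
    intro a b ha hb
    have := good_add ha hb
    rwa [rho_zero, add_zero] at this
  zero_mem' := good_zero
  neg_mem' := by
    intro a ha
    have := good_neg ha
    rwa [neg_zero, rho_zero] at this

/-- The translation homomorphism. -/
noncomputable def tau : Multiplicative Lat →* Gam where
  toFun a := ⟨aff 0 (Multiplicative.toAdd a : Lat).1, aff_mem (Multiplicative.toAdd a : Lat).2⟩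
  map_one' := Subtype.ext aff_one
  map_mul' a b := by
    apply Subtype.ext
    change _ = aff 0 _ * aff 0 _
    rw [aff_mul, rho_zero, add_zero]
    rfl

lemma rho_mem_Lat (h : G) (a : Lat) : rho h a.1 ∈ Lat := by
  intro j i c
  exact a.2 j (i - ell j h) c

/-- `ρ(h)` on the lattice. -/
noncomputable def rhoL (h : G) (a : Lat) : Lat := ⟨rho h a.1, rho_mem_Lat h a⟩

lemma sum_rho (x : V) : ∑ h : G, rho h x = 0 := by
  apply V_ext
  intro j i c
  have : (∑ h : G, rho h x).1 (j, i, c) = ∑ h : G, x.1 (j, i - ell j h, c) := by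
    rw [AddSubmonoidClass.coe_finsetSum, WithLp.ofLp_sum, Finset.sum_apply]
    rfl
  rw [this]
  change _ = (0 : ℝ)
  rw [Fintype.sum_prod_type]
  cases j with
  | none =>
    apply Finset.sum_eq_zero
    intro s _
    change ∑ y : ZMod 5, x.1 (none, i - y, c) = 0
    rw [← V_sum x none c]
    exact Fintype.sum_equiv (Equiv.subLeft i) _ _ (fun _ => rfl)
  | some t =>
    rw [Finset.sum_comm]
    apply Finset.sum_eq_zero
    intro s _
    change ∑ y : ZMod 5, x.1 (some t, i - (y + t * s), c) = 0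
    rw [← V_sum_shift x (some t) c (t * s)]
    refine Fintype.sum_equiv (Equiv.subLeft i) _ _ (fun y => ?_)
    simp only [Equiv.subLeft_apply, sub_sub]

lemma hom_trans {A : Type} [CommGroup A] (φ : Gam →* A) (b : Lat) :
    φ (tau (Multiplicative.ofAdd b)) ^ 25 = 1 := by
  have h1 : ∀ h : G, φ (tau (Multiplicative.ofAdd (rhoL h b))) = φ (tau (Multiplicative.ofAdd b)) := by
    intro h
    obtain ⟨c, hc⟩ := exists_good h
    have hconj : tau (Multiplicative.ofAdd (rhoL h b)) * ⟨aff h c, aff_mem hc⟩ =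
        ⟨aff h c, aff_mem hc⟩ * tau (Multiplicative.ofAdd b) := by
      apply Subtype.ext
      change aff 0 (rho h b.1) * aff h c = aff h c * aff 0 b.1
      rw [aff_mul, aff_mul, zero_add, add_zero, rho_zero, add_comm]
    have := congrArg φ hconj
    rw [map_mul, map_mul, mul_comm (φ ⟨aff h c, aff_mem hc⟩)] at this
    exact mul_right_cancel this
  have h2 : ∏ h : G, φ (tau (Multiplicative.ofAdd (rhoL h b))) = 1 := by
    change ∏ h : G, (φ.comp tau) (Multiplicative.ofAdd (rhoL h b)) = 1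
    rw [← map_prod, ← ofAdd_sum]
    have : ∑ h : G, rhoL h b = 0 := by
      apply Subtype.ext
      rw [AddSubmonoidClass.coe_finsetSum]
      exact sum_rho b.1
    rw [this, ofAdd_zero, map_one]
  rw [Finset.prod_congr rfl (fun h _ => h1 h), Finset.prod_const] at h2
  exact h2

lemma hom_torsion {A : Type} [CommGroup A] (φ : Gam →* A) (γ : Gam) : φ γ ^ 125 = 1 := by
  obtain ⟨_, g, a, ha, rfl⟩ := γ
  obtain ⟨b, hb, hb'⟩ := aff_pow g a ha 5
  have h5 : (5 : ℕ) • g = 0 := (by decide : ∀ g : G, (5 : ℕ) • g = 0) g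
  rw [h5] at hb hb'
  have : (⟨aff g a, ⟨g, a, ha, rfl⟩⟩ : Gam) ^ 5 = tau (Multiplicative.ofAdd ⟨b, hb⟩) :=
    Subtype.ext hb'
  rw [show (125 : ℕ) = 5 * 25 from rfl, pow_mul, ← map_pow, this, hom_trans]

lemma bettiOne_Gam : bettiOne Gam = 0 := by
  unfold bettiOne
  rw [rank_eq_zero_iff]
  intro x
  refine ⟨125, by norm_num, ?_⟩
  obtain ⟨γ, hγ⟩ : ∃ γ : Gam, Abelianization.of γ = x.toMul := QuotientGroup.mk_surjective _
  have := hom_torsion (Abelianization.of (G := Gam)) γ
  rw [hγ] at this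
  have h2 : (125 : ℕ) • x = 0 := by
    exact this
  exact_mod_cast h2

/-! ### Proper discontinuity and cocompactness -/

lemma abs_coord_le (x : V) (p : Idx) : |x.1 p| ≤ ‖x‖ := by
  have := PiLp.norm_apply_le x.1 p
  rwa [Real.norm_eq_abs] at this

lemma finite_bounded (R : ℝ) :
    {a : V | (∀ j i c, ∃ n : ℤ, 5 * a.1 (j, i, c) = n) ∧ ‖a‖ ≤ R}.Finite := by
  apply Set.Finite.of_injOn (f := fun (a : V) (p : Idx) => ⌊5 * a.1 p⌋)
    (t := Set.pi Set.univ (fun _ => Set.Icc (-(⌈5 * R⌉ + 1)) (⌈5 * R⌉ + 1)))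
  · rintro a ⟨_, ha⟩ p _
    have h1 := abs_le.mp ((abs_coord_le a p).trans ha)
    constructor
    · apply Int.le_floor.mpr
      push_cast
      have := Int.le_ceil (5 * R)
      linarith [h1.1]
    · have h2 : (⌊5 * a.1 p⌋ : ℝ) ≤ (⌈5 * R⌉ + 1 : ℤ) := by
        push_cast
        have := Int.le_ceil (5 * R)
        have := Int.floor_le (5 * a.1 p)
        linarith [h1.2]
      exact_mod_cast h2
  · rintro a ⟨ha, _⟩ b ⟨hb, _⟩ hab
    apply V_ext
    intro j i c
    obtain ⟨n, hn⟩ := ha j i c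
    obtain ⟨m, hm⟩ := hb j i c
    have := congrFun hab (j, i, c)
    simp only [hn, hm, Int.floor_intCast] at this
    rw [this] at hn
    have := hn.trans hm.symm
    linarith
  · exact Set.Finite.pi (fun _ => Set.finite_Icc _ _)

lemma discrete (K : Set V) (hK : IsCompact K) :
    {γ : V ≃ᵃⁱ[ℝ] V | γ ∈ Gam ∧ ((γ '' K) ∩ K).Nonempty}.Finite := by
  obtain ⟨R, hR⟩ := hK.isBounded.subset_closedBall 0
  apply ((Set.finite_univ (α := G)).prod (finite_bounded (2 * R))).image
    (fun p => aff p.1 p.2) |>.subset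
  rintro _ ⟨⟨g, a, ha, rfl⟩, _, ⟨x, hx, rfl⟩, hy⟩
  refine ⟨(g, a), ⟨Set.mem_univ _, ⟨fun j i c => ?_, ?_⟩⟩, rfl⟩
  · obtain ⟨n, hn, _⟩ := ha j i c
    exact ⟨n, hn⟩
  · have h1 : ‖x‖ ≤ R := by simpa using hR hx
    have h2 : ‖aff g a x‖ ≤ R := by simpa using hR hy
    have h3 : a = aff g a x - rho g x := by rw [aff_apply]; abel
    calc ‖a‖ = ‖aff g a x - rho g x‖ := by rw [← h3]
      _ ≤ ‖aff g a x‖ + ‖rho g x‖ := norm_sub_le _ _
      _ ≤ R + R := add_le_add h2 (by rw [LinearIsometryEquiv.norm_map]; exact h1)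
      _ = 2 * R := by ring

lemma norm_le_of_coord (x : V) (h : ∀ p, |x.1 p| ≤ 5) : ‖x‖ ≤ 60 := by
  change ‖x.1‖ ≤ 60
  rw [EuclideanSpace.norm_eq]
  apply Real.sqrt_le_iff.mpr
  refine ⟨by norm_num, ?_⟩
  calc ∑ p, ‖x.1 p‖ ^ 2 ≤ ∑ _p : Idx, (25 : ℝ) := by
        apply Finset.sum_le_sum
        intro p _
        rw [Real.norm_eq_abs]
        nlinarith [h p, abs_nonneg (x.1 p)]
    _ ≤ 60 ^ 2 := by
        rw [Finset.sum_const, Finset.card_univ]
        simp only [Fintype.card_prod, Fintype.card_option, ZMod.card, Fintype.card_fin]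
        norm_num

lemma cocompact : ∃ K : Set V, IsCompact K ∧ ∀ x, ∃ γ ∈ Gam, γ x ∈ K := by
  refine ⟨Metric.closedBall 0 60, isCompact_closedBall _ _, fun x => ?_⟩
  let f : Comp → ZMod 5 → Fin 2 → ℤ := fun j i c =>
    -⌊x.1 (j, i, c)⌋ + (if i = 0 then ∑ k, ⌊x.1 (j, k, c)⌋ else 0)
  let a : V := mkV (fun j i c => (f j i c : ℝ)) (by
    intro j c
    rw [← Int.cast_sum]
    have : ∑ i, f j i c = 0 := by
      simp only [f, Finset.sum_add_distrib, Finset.sum_ite_eq', Finset.mem_univ, if_true,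
        Finset.sum_neg_distrib, neg_add_cancel]
    rw [this]; simp)
  have ha : Good 0 a := by
    intro j i c
    refine ⟨5 * f j i c, ?_, ?_⟩
    · push_cast; rfl
    · have : (5 : ZMod 5) = 0 := by decide
      push_cast
      rw [this, zero_mul, em_zero]
  refine ⟨aff 0 a, aff_mem ha, ?_⟩
  rw [mem_closedBall_zero_iff]
  apply norm_le_of_coord
  rintro ⟨j, i, c⟩
  rw [aff_apply, rho_zero]
  change |(f j i c : ℝ) + x.1 (j, i, c)| ≤ 5
  have h0 : ∑ k, (⌊x.1 (j, k, c)⌋ : ℝ) = - ∑ k, Int.fract (x.1 (j, k, c)) := by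
    have h1 : ∑ k, ((⌊x.1 (j, k, c)⌋ : ℝ) + Int.fract (x.1 (j, k, c))) = 0 := by
      simp only [Int.floor_add_fract]
      exact V_sum x j c
    rw [Finset.sum_add_distrib] at h1
    linarith
  have h2 : (0 : ℝ) ≤ ∑ k, Int.fract (x.1 (j, k, c)) :=
    Finset.sum_nonneg (fun k _ => Int.fract_nonneg _)
  have h3 : ∑ k, Int.fract (x.1 (j, k, c)) ≤ ∑ _k : ZMod 5, (1 : ℝ) :=
    Finset.sum_le_sum (fun k _ => (Int.fract_lt_one _).le)
  simp only [Finset.sum_const, Finset.card_univ, ZMod.card, nsmul_eq_mul, mul_one] at h3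
  norm_num at h3
  have h4 := Int.fract_nonneg (x.1 (j, i, c))
  have h5 := (Int.fract_lt_one (x.1 (j, i, c))).le
  have h6 := Int.floor_add_fract (x.1 (j, i, c))
  simp only [f]
  push_cast
  rw [abs_le]
  split_ifs
  · rw [h0]
    constructor <;> linarith
  · constructor <;> linarith

lemma isBieberbach : IsBieberbach Gam :=
  ⟨discrete, cocompact, torsionFree⟩

/-! ### A complex structure -/

/-- The complex structure exchanging the two copies. -/
noncomputable def J0 : V →ₗ[ℝ] V where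
  toFun x := mkV (fun j i c => if c = 0 then - x.1 (j, i, 1) else x.1 (j, i, 0)) (by
    intro j c
    split_ifs
    · rw [Finset.sum_neg_distrib, V_sum, neg_zero]
    · exact V_sum x j 0)
  map_add' x y := by
    apply V_ext; intro j i c
    simp only [mkV_apply, Submodule.coe_add, PiLp.add_apply]
    split_ifs
    · ring
    · rfl
  map_smul' r x := by
    apply V_ext; intro j i c
    simp only [mkV_apply, Submodule.coe_smul, PiLp.smul_apply, smul_eq_mul, RingHom.id_apply]
    split_ifs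
    · ring
    · rfl

lemma J0_apply (x : V) (j i c) :
    (J0 x).1 (j, i, c) = if c = 0 then - x.1 (j, i, 1) else x.1 (j, i, 0) := rfl

lemma isComplexStructure_J0 : IsComplexStructure Gam J0 := by
  constructor
  · intro v
    apply V_ext; intro j i c
    rw [J0_apply, J0_apply, J0_apply]
    change _ = - v.1 (j, i, c)
    fin_cases c <;> simp
  · rintro _ ⟨g, a, ha, rfl⟩ v
    rw [aff_linear, aff_linear]
    apply V_ext; intro j i c
    rw [rho_apply, J0_apply, J0_apply]
    rfl

/-! ### The automorphism of infinite order -/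

/-- The element `1 + (1/5) ∑_s ρ(s,0) (α + β ρ(0,1) + β ρ(0,-1))` of the group algebra. -/
noncomputable def Phi (α β : ℤ) : V →ₗ[ℝ] V :=
  LinearMap.id + (1 / 5 : ℝ) • ∑ s : ZMod 5, (rho (s, 0)).toLinearEquiv.toLinearMap ∘ₗ
    ((α : ℝ) • LinearMap.id + (β : ℝ) • (rho (0, 1)).toLinearEquiv.toLinearMap
      + (β : ℝ) • (rho (0, -1)).toLinearEquiv.toLinearMap)

lemma Phi_apply (α β : ℤ) (x : V) : Phi α β x = x + (1 / 5 : ℝ) • ∑ s : ZMod 5,
    rho (s, 0) ((α : ℝ) • x + (β : ℝ) • rho (0, 1) x + (β : ℝ) • rho (0, -1) x) := by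
  simp only [Phi, LinearMap.add_apply, LinearMap.smul_apply, LinearMap.sum_apply,
    LinearMap.comp_apply, LinearMap.id_apply]
  rfl

lemma Phi_coord_aux (α β : ℤ) (x : V) (j i c) : (Phi α β x).1 (j, i, c) =
    x.1 (j, i, c) + (1 / 5 : ℝ) * ∑ s : ZMod 5,
      ((α : ℝ) • x + (β : ℝ) • rho (0, 1) x + (β : ℝ) • rho (0, -1) x).1
        (j, i - ell j (s, 0), c) := by
  rw [Phi_apply]
  rw [Submodule.coe_add, Submodule.coe_smul, PiLp.add_apply, PiLp.smul_apply,
    AddSubmonoidClass.coe_finsetSum, WithLp.ofLp_sum, Finset.sum_apply]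
  rfl

lemma Phi_some (α β : ℤ) (x : V) (t i c) :
    (Phi α β x).1 (some t, i, c) = x.1 (some t, i, c) := by
  rw [Phi_coord_aux]
  have : ∀ y : V, ∑ s : ZMod 5, y.1 (some t, i - ell (some t) (s, 0), c) = 0 := by
    intro y
    rw [← V_sum y (some t) c]
    refine Fintype.sum_equiv (Equiv.subLeft i) _ _ (fun s => ?_)
    simp [ell]
  rw [this, mul_zero, add_zero]

lemma Phi_none (α β : ℤ) (x : V) (i c) :
    (Phi α β x).1 (none, i, c) = (1 + α) * x.1 (none, i, c)
      + β * (x.1 (none, i - 1, c) + x.1 (none, i + 1, c)) := by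
  rw [Phi_coord_aux]
  have : ∀ y : V, ∑ s : ZMod 5, y.1 (none, i - ell none (s, 0), c) = 5 * y.1 (none, i, c) := by
    intro y
    simp [ell]
  rw [this]
  have h2 : ((α : ℝ) • x + (β : ℝ) • rho (0, 1) x + (β : ℝ) • rho (0, -1) x).1 (none, i, c)
      = α * x.1 (none, i, c) + β * x.1 (none, i - 1, c) + β * x.1 (none, i + 1, c) := by
    change α * x.1 (none, i, c) + β * x.1 (none, i - ell none (0, 1), c)
      + β * x.1 (none, i - ell none (0, -1), c) = _
    simp [ell]
  rw [h2]; ring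

lemma sum5 (f : ZMod 5 → ℝ) : ∑ k, f k = f 0 + f 1 + f 2 + f 3 + f 4 := Fin.sum_univ_five f

lemma sum_five (f : ZMod 5 → ℝ) (i : ZMod 5) :
    ∑ k, f k = f i + f (i + 1) + f (i + 1 + 1) + f (i - 1) + f (i - 1 - 1) := by
  rw [← Fintype.sum_equiv (Equiv.addRight i) (fun k => f (k + i)) f (fun k => rfl), sum5]
  have e0 : (0 : ZMod 5) + i = i := by revert i; decide
  have e1 : (1 : ZMod 5) + i = i + 1 := by revert i; decide
  have e2 : (2 : ZMod 5) + i = i + 1 + 1 := by revert i; decide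
  have e3 : (3 : ZMod 5) + i = i - 1 - 1 := by revert i; decide
  have e4 : (4 : ZMod 5) + i = i - 1 := by revert i; decide
  rw [e0, e1, e2, e3, e4]
  ring

lemma V_sum_five (x : V) (j i c) : x.1 (j, i, c) + x.1 (j, i + 1, c) + x.1 (j, i + 1 + 1, c)
    + x.1 (j, i - 1, c) + x.1 (j, i - 1 - 1, c) = 0 := by
  rw [← V_sum x j c]
  exact (sum_five (fun k => x.1 (j, k, c)) i).symm

/-- The automorphism `F` and its inverse. -/
noncomputable def FF : V ≃ₗ[ℝ] V :=
  LinearEquiv.ofLinearMap (Phi 1 (-3)) (Phi 4 3)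
    (by
      ext1 x
      change Phi 1 (-3) (Phi 4 3 x) = x
      apply V_ext
      intro j i c
      cases j with
      | some t => rw [Phi_some, Phi_some]
      | none =>
        have := V_sum_five x none i c
        rw [Phi_none, Phi_none, Phi_none, Phi_none]
        simp only [sub_add_cancel, add_sub_cancel_right]
        push_cast
        linear_combination (-9) * this)
    (by
      ext1 x
      change Phi 4 3 (Phi 1 (-3) x) = x
      apply V_ext
      intro j i c
      cases j with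
      | some t => rw [Phi_some, Phi_some]
      | none =>
        have := V_sum_five x none i c
        rw [Phi_none, Phi_none, Phi_none, Phi_none]
        simp only [sub_add_cancel, add_sub_cancel_right]
        push_cast
        linear_combination (-9) * this)

lemma FF_apply (x : V) : FF x = Phi 1 (-3) x := rfl
lemma FF_symm_apply (x : V) : FF.symm x = Phi 4 3 x := rfl

lemma Phi_rho (α β : ℤ) (g : G) (x : V) : Phi α β (rho g x) = rho g (Phi α β x) := by
  apply V_ext
  intro j i c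
  cases j with
  | some t => rw [Phi_some, rho_apply, rho_apply, Phi_some]
  | none =>
    rw [Phi_none, rho_apply, rho_apply, rho_apply, rho_apply, Phi_none]
    have e1 : i - 1 - ell none g = i - ell none g - 1 := by ring
    have e2 : i + 1 - ell none g = i - ell none g + 1 := by ring
    rw [e1, e2]

lemma Phi_comm (α β : ℤ) (J : V →ₗ[ℝ] V) (hJ : IsComplexStructure Gam J) (x : V) :
    Phi α β (J x) = J (Phi α β x) := by
  have hc : ∀ (g : G) (v : V), J (rho g v) = rho g (J v) := by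
    intro g v
    obtain ⟨a, ha⟩ := exists_good g
    have := hJ.comm (aff g a) (aff_mem ha) v
    rwa [aff_linear, aff_linear] at this
  rw [Phi_apply, Phi_apply, map_add, map_smul, map_sum]
  simp only [hc, map_add, map_smul]

lemma Phi_good (α β : ℤ) (h : ((α + 2 * β : ℤ) : ZMod 5) = 0) {g : G} {a : V} (ha : Good g a) :
    Good g (Phi α β a) := by
  intro j i c
  cases j with
  | some t => rw [Phi_some]; exact ha _ _ _
  | none =>
    obtain ⟨n, hn, hn'⟩ := ha none i c
    obtain ⟨m, hm, hm'⟩ := ha none (i - 1) c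
    obtain ⟨l, hl, hl'⟩ := ha none (i + 1) c
    refine ⟨(1 + α) * n + β * (m + l), ?_, ?_⟩
    · rw [Phi_none]
      push_cast
      rw [← hn, ← hm, ← hl]; ring
    · push_cast at h ⊢
      rw [hn', hm', hl']
      linear_combination (em none g) * h

lemma FF_orbit {x y : V} (h : ∃ γ ∈ Gam, γ x = y) : ∃ γ ∈ Gam, γ (FF x) = FF y := by
  obtain ⟨_, ⟨g, a, ha, rfl⟩, rfl⟩ := h
  refine ⟨aff g (FF a), aff_mem (Phi_good 1 (-3) (by decide) ha), ?_⟩
  rw [aff_apply, aff_apply, map_add, FF_apply (rho g x), Phi_rho]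
  rfl

lemma FF_symm_orbit {x y : V} (h : ∃ γ ∈ Gam, γ x = y) : ∃ γ ∈ Gam, γ (FF.symm x) = FF.symm y := by
  obtain ⟨_, ⟨g, a, ha, rfl⟩, rfl⟩ := h
  refine ⟨aff g (FF.symm a), aff_mem (Phi_good 4 3 (by decide) ha), ?_⟩
  rw [aff_apply, aff_apply, map_add, FF_symm_apply (rho g x), Phi_rho]
  rfl

/-- The induced bijection of `M`. -/
noncomputable def fM : Equiv.Perm (FlatManifold Gam) where
  toFun := Quotient.map (sa := orbitSetoid Gam) (sb := orbitSetoid Gam) FF (fun _ _ h => FF_orbit h)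
  invFun := Quotient.map (sa := orbitSetoid Gam) (sb := orbitSetoid Gam) FF.symm
    (fun _ _ h => FF_symm_orbit h)
  left_inv := by
    intro q
    induction q using Quotient.inductionOn with
    | h x =>
      change Quotient.mk _ (FF.symm (FF x)) = _
      rw [LinearEquiv.symm_apply_apply]
  right_inv := by
    intro q
    induction q using Quotient.inductionOn with
    | h x =>
      change Quotient.mk _ (FF (FF.symm x)) = _
      rw [LinearEquiv.apply_symm_apply]

lemma fM_mem (J : V →ₗ[ℝ] V) (hJ : IsComplexStructure Gam J) : fM ∈ Aut Gam J := by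
  refine ⟨FF.toAffineEquiv, fun x => rfl, fun v => ?_⟩
  change Phi 1 (-3) (J v) = J (Phi 1 (-3) v)
  exact Phi_comm _ _ J hJ v

lemma fM_pow (n : ℕ) (x : V) :
    (fM ^ n) (Quotient.mk (orbitSetoid Gam) x) = Quotient.mk (orbitSetoid Gam) ((FF ^ n) x) := by
  induction n with
  | zero => rfl
  | succ n ih =>
    rw [pow_succ', pow_succ']
    change fM ((fM ^ n) _) = _
    rw [ih]
    rfl

/-- The small root `φ` of `t² + t = 1`. -/
noncomputable def phi : ℝ := (Real.sqrt 5 - 1) / 2

lemma phi_sq : phi ^ 2 = 1 - phi := by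
  have := Real.sq_sqrt (show (0 : ℝ) ≤ 5 by norm_num)
  unfold phi
  nlinarith

lemma phi_gt : 1 / 3 < phi := by
  have : (2 : ℝ) < Real.sqrt 5 := by
    rw [Real.lt_sqrt (by norm_num)]; norm_num
  unfold phi
  linarith

lemma phi_lt : phi < 2 / 3 := by
  have : Real.sqrt 5 < (7 / 3 : ℝ) := by
    rw [Real.sqrt_lt' (by norm_num)]; norm_num
  unfold phi
  linarith

/-- The coefficients of the eigenfunctional. -/
noncomputable def cc : ZMod 5 → ℝ := ![2, phi, -1 - phi, -1 - phi, phi]

/-- the eigenfunctional on the component `none`, copy `0`. -/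
noncomputable def cfun (x : V) : ℝ := ∑ i, cc i * x.1 (none, i, 0)

lemma cc_rec (i : ZMod 5) : cc (i - 1) + cc (i + 1) = phi * cc i := by
  have h := phi_sq
  have e : ∀ i : ZMod 5, i = 0 ∨ i = 1 ∨ i = 2 ∨ i = 3 ∨ i = 4 := by decide
  rcases e i with rfl | rfl | rfl | rfl | rfl
  · change phi + phi = phi * 2
    ring
  · change 2 + (-1 - phi) = phi * phi
    linear_combination -h
  · change phi + (-1 - phi) = phi * (-1 - phi)
    linear_combination h
  · change (-1 - phi) + phi = phi * (-1 - phi)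
    linear_combination h
  · change (-1 - phi) + 2 = phi * phi
    linear_combination -h

lemma cfun_FF (x : V) : cfun (FF x) = (2 - 3 * phi) * cfun x := by
  unfold cfun
  have h1 : ∑ i, cc i * (FF x).1 (none, i, 0) =
      2 * (∑ i, cc i * x.1 (none, i, 0)) - 3 * (∑ i, cc i * x.1 (none, i - 1, 0))
        - 3 * (∑ i, cc i * x.1 (none, i + 1, 0)) := by
    rw [Finset.mul_sum, Finset.mul_sum, Finset.mul_sum, ← Finset.sum_sub_distrib,
      ← Finset.sum_sub_distrib]
    apply Finset.sum_congr rfl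
    intro i _
    rw [FF_apply, Phi_none]
    push_cast
    ring
  have h2 : ∑ i, cc i * x.1 (none, i - 1, 0) = ∑ i, cc (i + 1) * x.1 (none, i, 0) := by
    refine Fintype.sum_equiv (Equiv.subRight 1) _ _ (fun i => ?_)
    simp
  have h3 : ∑ i, cc i * x.1 (none, i + 1, 0) = ∑ i, cc (i - 1) * x.1 (none, i, 0) := by
    refine Fintype.sum_equiv (Equiv.addRight 1) _ _ (fun i => ?_)
    simp
  have h4 : ∑ i, cc (i + 1) * x.1 (none, i, 0) + ∑ i, cc (i - 1) * x.1 (none, i, 0)
      = phi * ∑ i, cc i * x.1 (none, i, 0) := by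
    rw [← Finset.sum_add_distrib, Finset.mul_sum]
    apply Finset.sum_congr rfl
    intro i _
    rw [← mul_assoc, ← cc_rec]; ring
  rw [h1, h2, h3]
  linear_combination (-3) * h4

lemma cfun_FF_pow (n : ℕ) (x : V) : cfun ((FF ^ n) x) = (2 - 3 * phi) ^ n * cfun x := by
  induction n with
  | zero => simp
  | succ n ih =>
    rw [pow_succ', pow_succ']
    change cfun (FF ((FF ^ n) x)) = _
    rw [cfun_FF, ih]; ring

/-- The vector `√2 (e₀ - e₁)` in the component `none`, copy `0`. -/
noncomputable def vint : ZMod 5 → ℤ := fun i => if i = 0 then 1 else if i = 1 then -1 else 0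

noncomputable def x0 : V := mkV (fun j i c => if j = none ∧ c = 0 then Real.sqrt 2 * vint i else 0) (by
  intro j c
  split_ifs
  · rw [← Finset.mul_sum, ← Int.cast_sum]
    have : ∑ i, vint i = 0 := by decide
    rw [this]; simp
  · simp)

lemma x0_apply (i : ZMod 5) : x0.1 (none, i, 0) = Real.sqrt 2 * vint i := by
  rw [x0, mkV_apply]; simp

lemma FF_pow_x0 (n : ℕ) : ∃ z : ZMod 5 → ℤ, ∀ i, ((FF ^ n) x0).1 (none, i, 0) = Real.sqrt 2 * z i := by
  induction n with
  | zero => exact ⟨vint, fun i => x0_apply i⟩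
  | succ n ih =>
    obtain ⟨z, hz⟩ := ih
    refine ⟨fun i => 2 * z i - 3 * (z (i - 1) + z (i + 1)), fun i => ?_⟩
    rw [pow_succ']
    change (FF ((FF ^ n) x0)).1 (none, i, 0) = _
    rw [FF_apply, Phi_none, hz, hz, hz]
    push_cast
    ring

lemma not_orbit (n : ℕ) (hn : 0 < n) : ¬ ∃ γ ∈ Gam, γ ((FF ^ n) x0) = x0 := by
  rintro ⟨_, ⟨g, a, ha, rfl⟩, h⟩
  obtain ⟨z, hz⟩ := FF_pow_x0 n
  have h1 : ∀ i, a.1 (none, i, 0) + Real.sqrt 2 * z (i - g.2) = Real.sqrt 2 * vint i := by
    intro i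
    have := congrArg (fun y : V => y.1 (none, i, 0)) h
    rw [← x0_apply, ← this, ← hz]
    rfl
  have h2 : ∀ i, z (i - g.2) = vint i := by
    intro i
    obtain ⟨m, hm, _⟩ := ha none i 0
    by_contra hne
    have hirr := irrational_sqrt_two
    have h3 : Real.sqrt 2 * ((5 * (vint i - z (i - g.2)) : ℤ) : ℝ) = m := by
      push_cast
      rw [← hm]
      linear_combination (-5) * h1 i
    have h4 : (5 * (vint i - z (i - g.2)) : ℤ) ≠ 0 := by
      intro h; apply hne; omega
    apply hirr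
    refine ⟨(m : ℚ) / ((5 * (vint i - z (i - g.2)) : ℤ) : ℚ), ?_⟩
    have h5 : (((5 * (vint i - z (i - g.2)) : ℤ)) : ℝ) ≠ 0 := by exact_mod_cast h4
    rw [Rat.cast_div, Rat.cast_intCast, Rat.cast_intCast, div_eq_iff h5]
    exact h3.symm
  have h3 : cfun ((FF ^ n) x0) = Real.sqrt 2 * ∑ i, cc i * vint (i + g.2) := by
    unfold cfun
    rw [Finset.mul_sum]
    apply Finset.sum_congr rfl
    intro i _
    rw [hz, ← h2 (i + g.2), add_sub_cancel_right]
    ring
  have h4 : cfun x0 = Real.sqrt 2 * (2 - phi) := by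
    have : cfun x0 = ∑ i, cc i * (Real.sqrt 2 * vint i) :=
      Finset.sum_congr rfl (fun i _ => by rw [x0_apply])
    rw [this]
    have := Fin.sum_univ_five (fun i : Fin 5 => cc i * (Real.sqrt 2 * vint i))
    refine this.trans ?_
    change 2 * (Real.sqrt 2 * ((1 : ℤ) : ℝ)) + phi * (Real.sqrt 2 * ((-1 : ℤ) : ℝ))
      + (-1 - phi) * (Real.sqrt 2 * ((0 : ℤ) : ℝ)) + (-1 - phi) * (Real.sqrt 2 * ((0 : ℤ) : ℝ))
      + phi * (Real.sqrt 2 * ((0 : ℤ) : ℝ)) = _
    push_cast
    ring
  rw [cfun_FF_pow, h4] at h3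
  have hs : Real.sqrt 2 ≠ 0 := by positivity
  have h5 : (2 - 3 * phi) ^ n * (2 - phi) = ∑ i, cc i * vint (i + g.2) := by
    apply mul_left_cancel₀ hs
    rw [← h3]; ring
  have hl1 : 0 < 2 - 3 * phi := by linarith [phi_lt]
  have hl2 : 2 - 3 * phi < 1 := by linarith [phi_gt]
  have hp1 : 0 < (2 - 3 * phi) ^ n := pow_pos hl1 n
  have hp2 : (2 - 3 * phi) ^ n < 1 := pow_lt_one₀ hl1.le hl2 hn.ne'
  have hq : 0 < 2 - phi := by linarith [phi_lt]
  have hr1 : 0 < (2 - 3 * phi) ^ n * (2 - phi) := mul_pos hp1 hq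
  have hr2 : (2 - 3 * phi) ^ n * (2 - phi) < 2 - phi := by nlinarith
  rw [h5] at hr1 hr2
  have e : ∀ i : ZMod 5, i = 0 ∨ i = 1 ∨ i = 2 ∨ i = 3 ∨ i = 4 := by decide
  have hsum' : ∑ i, cc i * (vint (i + g.2) : ℝ) = 2 * vint (0 + g.2) + phi * vint (1 + g.2)
      + (-1 - phi) * vint (2 + g.2) + (-1 - phi) * vint (3 + g.2) + phi * vint (4 + g.2) :=
    sum5 (fun i => cc i * (vint (i + g.2) : ℝ))
  rw [hsum'] at hr1 hr2
  have pg := phi_gt
  have pl := phi_lt
  rcases e g.2 with h | h | h | h | h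
  · rw [h, (by decide : vint (0 + 0) = 1), (by decide : vint (1 + 0) = -1), (by decide : vint (2 + 0) = 0), (by decide : vint (3 + 0) = 0), (by decide : vint (4 + 0) = 0)] at hr1 hr2
    push_cast at hr1 hr2
    linarith
  · rw [h, (by decide : vint (0 + 1) = -1), (by decide : vint (1 + 1) = 0), (by decide : vint (2 + 1) = 0), (by decide : vint (3 + 1) = 0), (by decide : vint (4 + 1) = 1)] at hr1 hr2
    push_cast at hr1 hr2
    linarith
  · rw [h, (by decide : vint (0 + 2) = 0), (by decide : vint (1 + 2) = 0), (by decide : vint (2 + 2) = 0), (by decide : vint (3 + 2) = 1), (by decide : vint (4 + 2) = -1)] at hr1 hr2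
    push_cast at hr1 hr2
    linarith
  · rw [h, (by decide : vint (0 + 3) = 0), (by decide : vint (1 + 3) = 0), (by decide : vint (2 + 3) = 1), (by decide : vint (3 + 3) = -1), (by decide : vint (4 + 3) = 0)] at hr1 hr2
    push_cast at hr1 hr2
    linarith
  · rw [h, (by decide : vint (0 + 4) = 0), (by decide : vint (1 + 4) = 1), (by decide : vint (2 + 4) = -1), (by decide : vint (3 + 4) = 0), (by decide : vint (4 + 4) = 0)] at hr1 hr2
    push_cast at hr1 hr2
    linarith

/-- **Main theorem.** There are a Euclidean space `E` and a Bieberbach group `Γ` on `E` such that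
the flat manifold `M = E/Γ` has `b₁(M) = 0`, admits a complex structure, and `Aut(M, J)` is
infinite for every complex structure `J` on `M`. -/
theorem result :
    ∃ (E : Type) (_ : NormedAddCommGroup E) (_ : InnerProductSpace ℝ E)
      (_ : FiniteDimensional ℝ E) (Γ : Subgroup (E ≃ᵃⁱ[ℝ] E)),
      IsBieberbach Γ ∧ bettiOne Γ = 0 ∧ (∃ J, IsComplexStructure Γ J) ∧
        ∀ J, IsComplexStructure Γ J → Infinite (Aut Γ J) := by
  refine ⟨V, inferInstance, inferInstance, inferInstance, Gam, isBieberbach, bettiOne_Gam,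
    ⟨J0, isComplexStructure_J0⟩, fun J hJ => ?_⟩
  by_contra hfin
  rw [not_infinite_iff_finite] at hfin
  obtain ⟨n, hn, h⟩ := isOfFinOrder_iff_pow_eq_one.mp
    (isOfFinOrder_of_finite (⟨fM, fM_mem J hJ⟩ : Aut Gam J))
  have h' : fM ^ n = 1 := congrArg Subtype.val h
  have h2 := fM_pow n x0
  rw [h'] at h2
  have h3 : Quotient.mk (orbitSetoid Gam) ((FF ^ n) x0) = Quotient.mk (orbitSetoid Gam) x0 :=
    h2.symm
  exact not_orbit n hn (Quotient.exact h3)

end Construction

end Pool.Agent.Results.MP_bb2d27_ag.AlwaysInfinite
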